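import Pool.Agent.R989.Wvm

/-!
# Fourth order statistics of stationary waves in the plane (MP_4fa179_mp)

The plane is `ℂ`; `lap f = dx (dx f) + dy (dy f)` is the Laplacian. Benjamini-Schramm limits of
Laplace eigenfunctions of a compact Riemannian surface, rescaled to eigenvalue `1`, are laws of
stationary random fields `F` on the plane with smooth samples and `ΔF + F = 0`. Such a field need
not be ergodic: its covariances, conditional on the σ-algebra of translation invariant events, are
given by a random spectral measure `m ν` on the unit circle, `m ≥ 0` a random number and `ν` a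
random probability measure (here: a law of the angle `α` of the direction `(cos α, sin α)`).
-/

set_option autoImplicit false
open MeasureTheory Filter Topology Complex ProbabilityTheory
open scoped ContDiff

namespace Pool.Agent.Results.MP_4fa179_mp.ConditionalFourPoint

open Pool.Agent.W745.RW (lap)

noncomputable section

/-- `F` is a stationary random field on the plane with smooth samples, `ΔF + F = 0` and
`E F(0)⁴ < ∞`. Stationary means: the shifted field has the same law, in the product of copies of
`ℝ` indexed by the points of the plane. -/
structure IsStationaryWave {S : Type*} [MeasurableSpace S] (P : Measure S)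
    (F : S → ℂ → ℝ) : Prop where
  prob : IsProbabilityMeasure P
  measurable : ∀ y, Measurable fun s => F s y
  smooth : ∀ s, ContDiff ℝ ∞ (F s)
  eigen : ∀ s y, lap (F s) y + F s y = 0
  stationary : ∀ x : ℂ, P.map (fun s y => F s (y + x)) = P.map F
  moment : Integrable (fun s => F s 0 ^ 4) P

/-- for a law `μ` of random functions on the plane: the measurable sets `A` of functions which,
for every translation, agree with their translate up to a `μ`-null set -/
@[reducible] def invariantSets (μ : Measure (ℂ → ℝ)) : MeasurableSpace (ℂ → ℝ) where
  MeasurableSet' A := MeasurableSet A ∧ ∀ x : ℂ, (fun f y => f (y + x)) ⁻¹' A =ᵐ[μ] A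
  measurableSet_empty := (Pool.Agent.R989.Erg.inv μ).measurableSet_empty
  measurableSet_compl := (Pool.Agent.R989.Erg.inv μ).measurableSet_compl
  measurableSet_iUnion := (Pool.Agent.R989.Erg.inv μ).measurableSet_iUnion

/-- the σ-algebra of the translation invariant events of the field `F`: the events `F ∈ A`, with
`A` in `invariantSets` of the law of `F` -/
@[reducible] def invariant {S : Type*} [MeasurableSpace S] (P : Measure S) (F : S → ℂ → ℝ) :
    MeasurableSpace S := (invariantSets (P.map F)).comap F

/-- the probability that two independent directions of law `ν` are parallel (equal or opposite) -/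
def parallel (ν : Measure ℝ) : ℝ := (ν.prod ν).real {p | Real.sin (p.1 - p.2) = 0}

/-- the covariance function of the Gaussian wave with directions of law `ν`:
`cov ν w = ∫ cos (w · (cos α, sin α)) dν(α)` -/
def cov (ν : Measure ℝ) (w : ℂ) : ℝ :=
  ∫ α, Real.cos (w.re * Real.cos α + w.im * Real.sin α) ∂ν

/-- the four point function at the points `w i` of the Gaussian wave with directions of law `ν` -/
def gauss (ν : Measure ℝ) (w : Fin 4 → ℂ) : ℝ :=
  cov ν (w 0 - w 1) * cov ν (w 2 - w 3) + cov ν (w 0 - w 2) * cov ν (w 1 - w 3) +
    cov ν (w 0 - w 3) * cov ν (w 1 - w 2)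

/-- **Result.** Let `F` be a stationary wave in the plane with `E F(0)⁴ < ∞`, and `m ν` its random
spectral measure: `E[F(0) F(w) | invariant events] = m · cov ν w` for all `w`. If almost surely `ν`
has no atoms modulo `π`, then all conditional four point functions are those of a Gaussian wave:
`E[F(w 0) F(w 1) F(w 2) F(w 3) | invariant events] = m² · gauss ν w`. -/
theorem result {S : Type*} [MeasurableSpace S] (P : Measure S) (F : S → ℂ → ℝ)
    (hF : IsStationaryWave P F) (m : S → ℝ) (ν : Kernel S ℝ) [IsMarkovKernel ν]
    (hcov : ∀ w : ℂ,
      P[fun s => F s 0 * F s w | invariant P F] =ᵐ[P] fun s => m s * cov (ν s) w)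
    (hpar : ∀ᵐ s ∂P, parallel (ν s) = 0) (w : Fin 4 → ℂ) :
    P[fun s => ∏ i, F s (w i) | invariant P F] =ᵐ[P] fun s => m s ^ 2 * gauss (ν s) w := by
  have := hF.prob
  have H : Pool.Agent.R989.Asm.Wv P F :=
    ⟨hF.measurable, hF.smooth, hF.eigen, hF.stationary, hF.moment⟩
  exact (Pool.Agent.R989.Asm.main H m ν hcov w).2 hpar

end

end Pool.Agent.Results.MP_4fa179_mp.ConditionalFourPoint
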