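import Pool.Agent.R989.T3f

/-!
# Third order local statistics of Laplace eigenfunctions on surfaces (MP_4fa179_mp)

A Riemannian surface in isothermal coordinates: an open set `Ω ⊆ ℂ` with the metric `ρ |dz|²`,
area measure `ρ dx dy`. `dx f z`, `dy f z` are the partial derivatives `fderiv ℝ f z 1`,
`fderiv ℝ f z I`, and `lap f = dx (dx f) + dy (dy f)`; `TF Ω φ` says that `φ : ℂ → ℝ` is smooth
with compact support contained in `Ω`.

In the metric rescaled by `λ` the operator `D = (λ ρ)^{-1/2} (∂x - i ∂y)` is the derivative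
`∂_1 - i ∂_2` in the conformal orthonormal frame; at a unit momentum of direction `α` its symbol is
`sym α = i exp(-iα)`. The functions `W k` (`k ∈ ℤ`) are the local field `u` with the Fourier
multiplier `(sym α)^k`. The hypothesis `hsc` says that `u n` has the semiclassical measure
`m(z) ν_z(dα) dvol(z)` on the unit cosphere bundle over `Ω`. Quantum ergodicity is the case `m = 1`,
`ν_z` uniform. For the Gaussian random wave all third moments vanish.

Proof idea. (1) The translation relations and the symmetry of the third moments determine them up to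
one unknown for each total order divisible by `3`, and to leading order they vanish for the other
total orders. (2) The unknown of order `s` is twice the limit of `∫ φ W_s S dvol`, where `S` is an
average over `j` of `(-1)^j |W_j|²` with weights `1, -1/2, -1/2` of period `3` in `j`. (3) By the
rigidity of the fourth moments the mean square of `S` converges to that of the Gaussian field with
the same covariances, a quadratic expression in the covariances, and, when the number of terms of
the average tends to infinity, this tends to `1/4` of the integral of `m²` times the probability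
that two independent directions form an angle of 60 or 120 degrees.
-/

set_option autoImplicit false
open MeasureTheory Filter Topology Complex ProbabilityTheory
open scoped ContDiff ENNReal

namespace Pool.Agent.Results.MP_4fa179_mp.ThirdMoments

open Pool.Agent.W745.RW

/-- the normalised frame derivative `(λ ρ)^{-1/2} (∂x - i ∂y)` -/
noncomputable def D (ρ : ℂ → ℝ) (lam : ℝ) (f : ℂ → ℂ) (z : ℂ) : ℂ :=
  ((1 / √(lam * ρ z) : ℝ) : ℂ) * (dx f z - I * dy f z)

/-- the symbol of `D` at a unit momentum of direction `α` -/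
noncomputable def sym (α : ℝ) : ℂ := I * Complex.exp (-(α : ℂ) * I)

/-- `W k = D^k u` for `k ≥ 0` and `W k = (-1)^k conj (D^|k| u)` for `k < 0` -/
noncomputable def W (ρ : ℂ → ℝ) (lam : ℝ) (u : ℂ → ℝ) : ℤ → ℂ → ℂ
  | Int.ofNat k => (D ρ lam)^[k] (fun w => (u w : ℂ))
  | Int.negSucc k => fun z => (-1) ^ (k + 1) *
      (starRingEnd ℂ) ((D ρ lam)^[k + 1] (fun w => (u w : ℂ)) z)

/-- the probability that two independent directions of law `ν` form an angle of 60 or 120
degrees -/
noncomputable def resonant (ν : Measure ℝ) : ℝ :=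
  (ν.prod ν).real {p | Real.sin (3 * (p.1 - p.2)) = 0 ∧ Real.sin (p.1 - p.2) ≠ 0}

/-- `1` if `a, b, c` are congruent modulo `3`, `-1/2` if they are not but `3` divides `a + b + c`,
and `0` if `3` does not divide `a + b + c` -/
noncomputable def t3 (a b c : ℤ) : ℝ :=
  if a % 3 = b % 3 ∧ b % 3 = c % 3 then 1 else if (a + b + c) % 3 = 0 then -(1 / 2) else 0

/-- **Result.** Let `u n` be real solutions of `Δu + λ_n u = 0` for the metric `ρ |dz|²` on `Ω`
(that is `lap u + λ_n ρ u = 0`), `λ_n → ∞`, with semiclassical measure `m(z) ν_z dvol(z)`, `m`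
locally square integrable. Let `K ⊆ Ω` be compact, `φ ≥ 0` a test function supported in its
interior, and `a, b, c` integers. Then for all large `n` the local third moment of
`(W a, W b, W c)` is at most
`|t3 a b c| (∫ φ m dvol)^{1/2} (∫ φ m² resonant(ν_z) dvol)^{1/2}`, up to an error
`ε (1 + ∫_K u⁴)^{3/4}`. -/
theorem result (Ω : Set ℂ) (hΩ : IsOpen Ω) (ρ : ℂ → ℝ) (hρ : ContDiffOn ℝ ∞ ρ Ω)
    (hρ0 : ∀ z ∈ Ω, 0 < ρ z) (lam : ℕ → ℝ) (hpos : ∀ n, 0 < lam n)
    (hlam : Tendsto lam atTop atTop) (u : ℕ → ℂ → ℝ) (hu : ∀ n, ContDiffOn ℝ ∞ (u n) Ω)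
    (heq : ∀ n, ∀ z ∈ Ω, lap (u n) z + lam n * (ρ z * u n z) = 0)
    (m : ℂ → ℝ) (hm : ∀ K : Set ℂ, IsCompact K → K ⊆ Ω → MemLp m 2 (volume.restrict K))
    (ν : Kernel ℂ ℝ) [IsMarkovKernel ν]
    (hsc : ∀ φ, TF Ω φ → ∀ k : ℕ, Tendsto (fun n => ∫ z, ((φ z * ρ z : ℝ) : ℂ) *
      ((u n z : ℂ) * (D ρ (lam n))^[k] (fun w => (u n w : ℂ)) z)) atTop
      (𝓝 (∫ z, ((φ z * ρ z : ℝ) : ℂ) * ((m z : ℂ) * ∫ α, sym α ^ k ∂(ν z)))))
    (K : Set ℂ) (hK : IsCompact K) (hKΩ : K ⊆ Ω) (φ : ℂ → ℝ) (hφ : TF (interior K) φ)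
    (hφ0 : ∀ z, 0 ≤ φ z) (a b c : ℤ) (ε : ℝ) (hε : 0 < ε) :
    ∀ᶠ n in atTop, ‖∫ z, ((φ z * ρ z : ℝ) : ℂ) * (W ρ (lam n) (u n) a z *
        W ρ (lam n) (u n) b z * W ρ (lam n) (u n) c z)‖ ≤
      |t3 a b c| * √((∫ z, φ z * ρ z * m z) * ∫ z, φ z * ρ z * (m z ^ 2 * resonant (ν z))) +
        ε * (1 + ∫ z in K, u n z ^ 4) ^ (3 / 4 : ℝ) := by
  have hW : ∀ n k, W ρ (lam n) (u n) k = Pool.Agent.TH294.RS.WW ρ (lam n) (u n) k := by
    intro n k
    cases k with
    | ofNat k => rfl
    | negSucc k => rfl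
  have hr : ∀ z, Pool.Agent.R989.Th3.res Pool.Agent.TH294.RG.ea (ν z) = resonant (ν z) := by
    intro z
    simp only [Pool.Agent.R989.Th3.res, Pool.Agent.R989.Th3.RS_ea]
    rfl
  have ht : Pool.Agent.R989.Th3.tt a b c = t3 a b c := rfl
  have key := Pool.Agent.R989.Th3.third_met hΩ hρ hρ0 hpos hlam hu heq hm (ν := ν) hsc hK hKΩ hφ
    hφ0 a b c hε
  simp only [hW]
  simp only [hr, ht] at key
  exact key

end Pool.Agent.Results.MP_4fa179_mp.ThirdMoments
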